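import Pool.Agent.helper24.NRW.RT
import Pool.Agent.helper64.NRW.RTA

set_option autoImplicit false

namespace Pool.Agent.helper84.NR

open scoped Classical
open Finset

theorem U_CA1X : ∀ (V F : Type) (M : PMap V F) (x y : V) (A B : F) (v : V) (m m' : ℕ)
  (a b : ℕ → V), OnV M.toCyc A x → OnV M.toCyc B y → Acc M x y A v m a → Acc M y x B v m' b →
  ∃ q : ℕ → V, (∀ i, i ≤ m → q i = a i) ∧ (∀ i, m ≤ i → q i = b (m + m' - i)) ∧ q 0 = x ∧ q (m + m') = y ∧
    (∀ i j, i ≤ m + m' → j ≤ m + m' → q i = q j → i = j) ∧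
    (∀ i, i < m + m' → Adj M.toCyc (q i) (q (i + 1))) ∧
    ∀ f, (OnV M.toCyc f x ∨ OnV M.toCyc f y) → ∀ i j, i ≤ j → j ≤ m + m' → OnV M.toCyc f (q i) → OnV M.toCyc f (q j) →
      ∀ k, i ≤ k → k < j → OnE M.toCyc f s(q k, q (k + 1)) := by
  intro V F M x y A B v m m' a b hAx hBy hA hB
  obtain ⟨hE1, hE2⟩ := h_EDG V F M
  obtain ⟨hm, ha0, ham, hainj, haE, haY, haF⟩ := hA
  obtain ⟨hm', hb0, hbm, hbinj, hbE, hbX, hbF⟩ := hB
  have haA : ∀ i, i ≤ m → OnV M.toCyc A (a i) := by
    intro i hi
    rcases Nat.lt_or_ge i m with h | h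
    · exact (hE1 A _ _ (haE i h)).1
    · have h1 : i = (m - 1) + 1 := by omega
      rw [h1]
      exact (hE1 A _ _ (haE (m - 1) (by omega))).2.1
  have hbB : ∀ i, i ≤ m' → OnV M.toCyc B (b i) := by
    intro i hi
    rcases Nat.lt_or_ge i m' with h | h
    · exact (hE1 B _ _ (hbE i h)).1
    · have h1 : i = (m' - 1) + 1 := by omega
      rw [h1]
      exact (hE1 B _ _ (hbE (m' - 1) (by omega))).2.1
  obtain ⟨q, hq⟩ : ∃ q : ℕ → V, q = fun j => if j ≤ m then a j else b (m + m' - j) := ⟨_, rfl⟩
  have hqa : ∀ i, i ≤ m → q i = a i := by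
    intro i hi
    rw [hq]
    exact if_pos hi
  have hqb : ∀ i, m ≤ i → q i = b (m + m' - i) := by
    intro i hi
    rcases Nat.lt_or_ge m i with h | h
    · rw [hq]
      exact if_neg (by omega)
    · have h1 : i = m := by omega
      rw [hqa i h, h1, ham, ← hbm]
      congr 1
      omega
  -- the edges of the second part
  have hedgeB : ∀ k, m ≤ k → k < m + m' → OnE M.toCyc B s(q k, q (k + 1)) := by
    intro k hk hk2
    rw [hqb k hk, hqb (k + 1) (by omega), Sym2.eq_swap]
    have h1 : m + m' - k = (m + m' - (k + 1)) + 1 := by omega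
    rw [h1]
    exact hbE _ (by omega)
  have hedgeA : ∀ k, k < m → OnE M.toCyc A s(q k, q (k + 1)) := by
    intro k hk
    rw [hqa k (by omega), hqa (k + 1) (by omega)]
    exact haE k hk
  have hadj : ∀ i, i < m + m' → Adj M.toCyc (q i) (q (i + 1)) := by
    intro i hi
    rcases Nat.lt_or_ge i m with h | h
    · exact ⟨A, hedgeA i h⟩
    · exact ⟨B, hedgeB i h hi⟩
  refine ⟨q, hqa, hqb, ?_, ?_, ?_, hadj, ?_⟩
  · rw [hqa 0 (by omega), ha0]
  · rw [hqb (m + m') (by omega), ← hb0]
    congr 1
    omega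
  · -- injectivity
    have key : ∀ i j, i ≤ m → m < j → j ≤ m + m' → q i ≠ q j := by
      intro i j hi hj hj2 h
      rw [hqa i hi, hqb j (by omega)] at h
      exact hbX (m + m' - j) (by omega) ⟨A, hAx, h ▸ haA i hi⟩
    intro i j hi hj h
    rcases Nat.lt_or_ge m i with h1 | h1
    · rcases Nat.lt_or_ge m j with h2 | h2
      · rw [hqb i (by omega), hqb j (by omega)] at h
        have h3 := hbinj _ _ (by omega) (by omega) h
        omega
      · exact absurd h.symm (key j i h2 h1 hi)
    · rcases Nat.lt_or_ge m j with h2 | h2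
      · exact absurd h (key i j h1 h2 hj)
      · rw [hqa i h1, hqa j h2] at h
        exact hainj i j h1 h2 h
  · intro f hf i j hij hj hfi hfj k hik hkj
    rcases hf with hf | hf
    · -- a face at `x`
      have hjm : j ≤ m := by
        by_contra h
        rw [hqb j (by omega)] at hfj
        exact hbX (m + m' - j) (by omega) ⟨f, hf, hfj⟩
      by_cases hfA : f = A
      · rw [hfA]
        exact hedgeA k (by omega)
      · rw [hqa j hjm] at hfj
        have h1 := haF f hf hfA j (by omega) hjm hfj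
        have h2 : k = 0 := by omega
        have h3 : OnV M.toCyc f (q 0) := by
          rw [hqa 0 (by omega), ha0]
          exact hf
        have h4 : OnV M.toCyc f (q (0 + 1)) := by
          rw [hqa (0 + 1) (by omega)]
          rw [h1] at hfj
          exact hfj
        rw [h2]
        exact hE2 f _ _ (hadj 0 (by omega)) h3 h4
    · -- a face at `y`
      have him : m ≤ i := by
        by_contra h
        rw [hqa i (by omega)] at hfi
        exact haY i (by omega) ⟨f, hf, hfi⟩
      by_cases hfB : f = B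
      · rw [hfB]
        exact hedgeB k (by omega) (by omega)
      · rw [hqb i him] at hfi
        have h1 := hbF f hf hfB (m + m' - i) (by omega) (by omega) hfi
        have h2 : k = i := by omega
        have h3 : OnV M.toCyc f (q k) := by
          rw [h2, hqb i him]
          exact hfi
        have h4 : OnV M.toCyc f (q (k + 1)) := by
          rw [hqb (k + 1) (by omega)]
          have h5 : m + m' - (k + 1) = 0 := by omega
          rw [h5, hb0]
          exact hf
        exact hE2 f _ _ (hadj k (by omega)) h3 h4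

theorem U_acc {V F : Type} (M : PMap V F) (x y : V) (A : F) (v : V) (m : ℕ) (a : ℕ → V)
    (h : Acc M x y A v m a) : ∀ j, j ≤ m → OnV M.toCyc A (a j) := by
  obtain ⟨h1, -, -, -, h5, -, -⟩ := h
  intro j hj
  rcases Nat.lt_or_ge j m with hlt | hge
  · exact ((h_EDG V F M).1 A _ _ (h5 j hlt)).1
  · have e : j = (m - 1) + 1 := by omega
    rw [e]
    exact ((h_EDG V F M).1 A _ _ (h5 (m - 1) (by omega))).2.1

theorem U_CA2X : ∀ (V F : Type) (M : PMap V F) (x y : V) (A B : F) (v w : V) (m m' : ℕ)
  (a b : ℕ → V), OnV M.toCyc A x → OnV M.toCyc B y → OnE M.toCyc A s(v, w) →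
  OnE M.toCyc B s(v, w) → ¬ Adj M.toCyc x w → ¬ Adj M.toCyc v y →
  Acc M x y A v m a → Acc M y x B w m' b →
  ∃ q : ℕ → V, (∀ i, i ≤ m → q i = a i) ∧ (∀ i, m < i → q i = b (m + 1 + m' - i)) ∧ q 0 = x ∧ q (m + 1 + m') = y ∧
    (∀ i j, i ≤ m + 1 + m' → j ≤ m + 1 + m' → q i = q j → i = j) ∧
    (∀ i, i < m + 1 + m' → Adj M.toCyc (q i) (q (i + 1))) ∧
    ∀ f, (OnV M.toCyc f x ∨ OnV M.toCyc f y) → ∀ i j, i ≤ j → j ≤ m + 1 + m' → OnV M.toCyc f (q i) → OnV M.toCyc f (q j) →
      ∀ k, i ≤ k → k < j → OnE M.toCyc f s(q k, q (k + 1)) := by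
  intro V F M x y A B v w m m' a b hAx hBy hA hB hxw hvy HA HB
  have onA := U_acc M x y A v m a HA
  have onB := U_acc M y x B w m' b HB
  obtain ⟨a1, a2, a3, a4, a5, a6, a7⟩ := HA
  obtain ⟨b1, b2, b3, b4, b5, b6, b7⟩ := HB
  obtain ⟨vA, wA, vw⟩ := (h_EDG V F M).1 A v w hA
  obtain ⟨vB, wB, -⟩ := (h_EDG V F M).1 B v w hB
  have xnb : ¬ ∃ B, OnV M.toCyc B y ∧ OnV M.toCyc B x := by
    have := a6 0 (by omega)
    rwa [a2] at this
  have ynb : ¬ ∃ B, OnV M.toCyc B x ∧ OnV M.toCyc B y := by
    have := b6 0 (by omega)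
    rwa [b2] at this
  have hxw' : x ≠ w := fun h => xnb ⟨B, hBy, by rw [h]; exact wB⟩
  have hyv' : y ≠ v := fun h => ynb ⟨A, hAx, by rw [h]; exact vA⟩
  let q : ℕ → V := fun i => if i ≤ m then a i else b (m + 1 + m' - i)
  have qa : ∀ i, i ≤ m → q i = a i := fun i hi => if_pos hi
  have qb : ∀ i, m < i → q i = b (m + 1 + m' - i) := fun i hi => if_neg (by omega)
  have cross : ∀ i k, i ≤ m → k ≤ m' → a i ≠ b k := by
    intro i k hi hk h
    rcases Nat.lt_or_ge i m with hlt | hge
    · apply a6 i hlt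
      refine ⟨B, hBy, ?_⟩
      rw [h]
      exact onB k hk
    · have ei : i = m := by omega
      rw [ei, a3] at h
      rcases Nat.lt_or_ge k m' with klt | kge
      · apply b6 k klt
        refine ⟨A, hAx, ?_⟩
        rw [← h]
        exact vA
      · have ek : k = m' := by omega
        rw [ek, b3] at h
        exact vw h
  have edge : ∀ i, i < m + 1 + m' →
      (i < m ∧ OnE M.toCyc A s(q i, q (i + 1))) ∨
      (i = m ∧ OnE M.toCyc A s(q i, q (i + 1)) ∧ OnE M.toCyc B s(q i, q (i + 1))) ∨
      (m < i ∧ OnE M.toCyc B s(q i, q (i + 1))) := by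
    intro i hi
    rcases lt_trichotomy i m with h | h | h
    · left
      refine ⟨h, ?_⟩
      rw [qa i h.le, qa (i + 1) (by omega)]
      exact a5 i h
    · right
      left
      refine ⟨h, ?_⟩
      rw [qa i (by omega), qb (i + 1) (by omega), h, a3]
      have e : m + 1 + m' - (m + 1) = m' := by omega
      rw [e, b3]
      exact ⟨hA, hB⟩
    · right
      right
      refine ⟨h, ?_⟩
      rw [qb i h, qb (i + 1) (by omega)]
      have e : m + 1 + m' - i = (m + 1 + m' - (i + 1)) + 1 := by omega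
      rw [e, Sym2.eq_swap]
      exact b5 _ (by omega)
  refine ⟨q, qa, qb, ?_, ?_, ?_, ?_, ?_⟩
  · rw [qa 0 (by omega), a2]
  · rw [qb _ (by omega)]
    have e : m + 1 + m' - (m + 1 + m') = 0 := by omega
    rw [e, b2]
  · intro i j hi hj h
    rcases Nat.lt_or_ge m i with h1 | h1
    · rcases Nat.lt_or_ge m j with h2 | h2
      · rw [qb i h1, qb j h2] at h
        have := b4 _ _ (by omega) (by omega) h
        omega
      · rw [qb i h1, qa j h2] at h
        exact absurd h.symm (cross j _ h2 (by omega))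
    · rcases Nat.lt_or_ge m j with h2 | h2
      · rw [qa i h1, qb j h2] at h
        exact absurd h (cross i _ h1 (by omega))
      · rw [qa i h1, qa j h2] at h
        exact a4 _ _ h1 h2 h
  · intro i hi
    rcases edge i hi with h | h | h
    · exact ⟨A, h.2⟩
    · exact ⟨A, h.2.1⟩
    · exact ⟨B, h.2⟩
  · intro f hf i j hij hj hqi hqj k hik hkj
    rcases hf with hf | hf
    · -- a face at `x`
      have far : ∀ l, m + 1 < l → l ≤ m + 1 + m' → ¬ OnV M.toCyc f (q l) := by
        intro l h1 h2 h3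
        rw [qb l (by omega)] at h3
        exact b6 _ (by omega) ⟨f, hf, h3⟩
      by_cases hfA : f = A
      · have hj1 : j ≤ m + 1 := by
          by_contra hcon
          exact far j (by omega) hj hqj
        rw [hfA]
        rcases edge k (by omega) with h | h | h
        · exact h.2
        · exact h.2.1
        · omega
      · have hle : ∀ l, l ≤ m + 1 + m' → OnV M.toCyc f (q l) → l ≤ 1 := by
          intro l h1 h2
          rcases Nat.lt_or_ge (m + 1) l with h3 | h3
          · exact absurd h2 (far l h3 h1)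
          · rcases Nat.lt_or_ge m l with h4 | h4
            · have el : l = m + 1 := by omega
              exfalso
              rw [qb l h4, el] at h2
              have e : m + 1 + m' - (m + 1) = m' := by omega
              rw [e, b3] at h2
              have := M.poly f A hfA x w hxw' hf h2 hAx wA
              exact hxw ⟨A, this.2.1⟩
            · rw [qa l h4] at h2
              rcases Nat.eq_zero_or_pos l with h5 | h5
              · omega
              · exact (a7 f hf hfA l h5 h4 h2).le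
        have hj1 := hle j hj hqj
        have ei : i = 0 := by omega
        have ej : j = 1 := by omega
        have ek : k = 0 := by omega
        rw [ei] at hqi
        rw [ej] at hqj
        rw [ek]
        refine (h_EDG V F M).2 f _ _ ?_ hqi hqj
        rcases edge 0 (by omega) with h | h | h
        · exact ⟨A, h.2⟩
        · exact ⟨A, h.2.1⟩
        · exact ⟨B, h.2⟩
    · -- a face at `y`
      have far : ∀ l, l < m → ¬ OnV M.toCyc f (q l) := by
        intro l h1 h3
        rw [qa l (by omega)] at h3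
        exact a6 _ (by omega) ⟨f, hf, h3⟩
      by_cases hfB : f = B
      · have hi1 : m ≤ i := by
          by_contra hcon
          exact far i (by omega) hqi
        rw [hfB]
        rcases edge k (by omega) with h | h | h
        · omega
        · exact h.2.2
        · exact h.2
      · have hle : ∀ l, l ≤ m + 1 + m' → OnV M.toCyc f (q l) → m + m' ≤ l := by
          intro l h1 h2
          rcases Nat.lt_or_ge l m with h3 | h3
          · exact absurd h2 (far l h3)
          · rcases Nat.lt_or_ge m l with h4 | h4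
            · rw [qb l h4] at h2
              rcases Nat.eq_zero_or_pos (m + 1 + m' - l) with h5 | h5
              · omega
              · have := b7 f hf hfB _ h5 (by omega) h2
                omega
            · have el : l = m := by omega
              exfalso
              rw [qa l h4, el, a3] at h2
              have := M.poly f B hfB y v hyv' hf h2 hBy vB
              apply hvy
              have h6 := this.2.1
              rw [Sym2.eq_swap] at h6
              exact ⟨B, h6⟩
        have hi1 := hle i (by omega) hqi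
        have ei : i = m + m' := by omega
        have ej : j = m + m' + 1 := by omega
        have ek : k = m + m' := by omega
        rw [ei] at hqi
        rw [ej] at hqj
        rw [ek]
        refine (h_EDG V F M).2 f _ _ ?_ hqi hqj
        rcases edge (m + m') (by omega) with h | h | h
        · exact ⟨A, h.2⟩
        · exact ⟨A, h.2.1⟩
        · exact ⟨B, h.2⟩


theorem U_nbr {V F : Type} (M : Cyc V F) (f : F) (z p q v : V) (hp : OnE M f s(z, p))
    (hq : OnE M f s(z, q)) (hv : OnE M f s(z, v)) (hpq : p ≠ q) (hzp : z ≠ p) (hzq : z ≠ q)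
    (hzv : z ≠ v) (hz : OnV M f z) : v = p ∨ v = q := by
  obtain ⟨k0, hk0⟩ := hz
  obtain ⟨-, I2, -, I4, -⟩ := h_IDX V F M f k0
  have key : ∀ w, OnE M f s(z, w) → z ≠ w →
      w = M.bd f (k0 + 1) ∨ w = M.bd f (k0 + (M.len f - 1)) := by
    intro w hw hzw
    have hwf : OnV M f w := by
      obtain ⟨k, hk⟩ := hw
      rcases Sym2.eq_iff.1 hk with ⟨-, h⟩ | ⟨-, h⟩
      · exact ⟨k + 1, h.symm⟩
      · exact ⟨k, h.symm⟩
    obtain ⟨b, hb, hbw⟩ := I2 w hwf
    have hb0 : b ≠ 0 := by
      rintro rfl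
      apply hzw
      rw [← hbw, ← hk0, Nat.add_zero]
    have h1 : OnE M f s(M.bd f (k0 + 0), M.bd f (k0 + b)) := by
      rw [hbw, Nat.add_zero, hk0]
      exact hw
    rcases I4 0 b (by omega) hb h1 with h | ⟨-, h⟩
    · left
      rw [← hbw, h]
    · right
      rw [← hbw, h]
  rcases key p hp hzp with h1 | h1 <;> rcases key q hq hzq with h2 | h2 <;>
    rcases key v hv hzv with h3 | h3 <;>
    first
      | exact absurd (h1.trans h2.symm) hpq
      | exact Or.inl (h3.trans h1.symm)
      | exact Or.inr (h3.trans h2.symm)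

section
variable {V F : Type} (M : PMap V F) (x y : V) (A : F) (v : V) (m : ℕ) (a : ℕ → V)

theorem U_in (h : Acc M x y A v m a) : ∀ i u, 1 ≤ i → i < m → a i ≠ u → OnE M.toCyc A s(a i, u) →
    u = a (i - 1) ∨ u = a (i + 1) := by
  obtain ⟨h1, h2, h3, h4, h5, h6, h7⟩ := h
  intro i u hi hm hne hu
  obtain ⟨hE1, -⟩ := h_EDG V F M
  have e1 : OnE M.toCyc A s(a i, a (i - 1)) := by
    have h8 := h5 (i - 1) (by omega)
    rw [show i - 1 + 1 = i by omega, Sym2.eq_swap] at h8
    exact h8
  have e2 := h5 i hm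
  refine U_nbr M.toCyc A (a i) (a (i - 1)) (a (i + 1)) u e1 e2 hu ?_ (hE1 A _ _ e1).2.2
    (hE1 A _ _ e2).2.2 hne (hE1 A _ _ e1).1
  intro h8
  have h9 := h4 (i - 1) (i + 1) (by omega) (by omega) h8
  omega

theorem U_part (h : Acc M x y A v m a) (hAx : OnV M.toCyc A x) : ∀ g, ¬ OnV M.toCyc g x →
    ∀ i j, i < j → j ≤ m → OnV M.toCyc g (a i) → OnV M.toCyc g (a j) →
    1 ≤ i ∧ j = i + 1 ∧ OnE M.toCyc g s(a i, a (i + 1)) := by
  have hin := U_in M x y A v m a h
  have hon := U_acc M x y A v m a h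
  obtain ⟨h1, h2, h3, h4, h5, h6, h7⟩ := h
  intro g hg i j hij hj hi' hj'
  have hi1 : 1 ≤ i := by
    rcases Nat.eq_zero_or_pos i with h8 | h8
    · rw [h8, h2] at hi'
      exact absurd hi' hg
    · exact h8
  have hAg : A ≠ g := by
    rintro rfl
    exact hg hAx
  have hne : a i ≠ a j := fun h8 => by
    have h9 := h4 i j (by omega) hj h8
    omega
  obtain ⟨eA, eg, -⟩ := M.poly A g hAg (a i) (a j) hne (hon i (by omega)) (hon j hj) hi' hj'
  rcases hin i (a j) hi1 (by omega) hne eA with h8 | h8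
  · have h9 := h4 j (i - 1) hj (by omega) h8
    omega
  · have h9 := h4 j (i + 1) hj (by omega) h8
    refine ⟨hi1, h9, ?_⟩
    rw [← h9]
    exact eg

theorem U_cm (h : Acc M x y A v m a) (hAx : OnV M.toCyc A x) : ∀ g, ¬ OnV M.toCyc g x →
    ∀ i, i < m → OnV M.toCyc g (a i) → ∀ u, OnV M.toCyc A u → OnV M.toCyc g u →
    (∃ B', OnV M.toCyc B' y ∧ OnV M.toCyc B' u) → u = v := by
  have hin := U_in M x y A v m a h
  have hon := U_acc M x y A v m a h
  obtain ⟨h1, h2, h3, h4, h5, h6, h7⟩ := h
  intro g hg i hm hi' u huA hug huy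
  have hi1 : 1 ≤ i := by
    rcases Nat.eq_zero_or_pos i with h8 | h8
    · rw [h8, h2] at hi'
      exact absurd hi' hg
    · exact h8
  have hAg : A ≠ g := by
    rintro rfl
    exact hg hAx
  have hne : a i ≠ u := by
    rintro h8
    apply h6 i hm
    rw [h8]
    exact huy
  obtain ⟨eA, -, -⟩ := M.poly A g hAg (a i) u hne (hon i (by omega)) huA hi' hug
  rcases hin i u hi1 hm hne eA with h8 | h8
  · exact absurd (h8 ▸ huy) (h6 (i - 1) (by omega))
  · rcases Nat.lt_or_ge (i + 1) m with h9 | h9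
    · exact absurd (h8 ▸ huy) (h6 (i + 1) h9)
    · have h10 : i + 1 = m := by omega
      rw [h8, h10, h3]

/-- Data of the exception: an unshared neighbour. -/
theorem U_uns (h : Acc M x y A v m a) (hm : 1 < m) :
    ∃ s, Adj M.toCyc x s ∧ OnV M.toCyc A s ∧ ¬ ∃ B', OnV M.toCyc B' y ∧ OnV M.toCyc B' s := by
  have hon := U_acc M x y A v m a h
  obtain ⟨h1, h2, h3, h4, h5, h6, h7⟩ := h
  refine ⟨a 1, ⟨A, ?_⟩, hon 1 (by omega), h6 1 hm⟩
  have h8 := h5 0 (by omega)
  rw [h2] at h8
  exact h8

end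

/-- The exceptional configuration: a face `g` containing neither `x` nor `y` which meets `A ∋ x` and `B ∋ y`,
`A` and `B` meet, no common vertex of the three, and unshared neighbours on `A` and on `B`. -/
def UExc {V F : Type} (M : PMap V F) (x y : V) (A B : F) : Prop :=
  (∃ g, ¬ OnV M.toCyc g x ∧ ¬ OnV M.toCyc g y ∧ (∃ u, OnV M.toCyc A u ∧ OnV M.toCyc g u) ∧
    (∃ u, OnV M.toCyc B u ∧ OnV M.toCyc g u) ∧
    ¬ ∃ u, OnV M.toCyc A u ∧ OnV M.toCyc B u ∧ OnV M.toCyc g u) ∧
  (∃ s, Adj M.toCyc x s ∧ OnV M.toCyc A s ∧ ¬ ∃ B', OnV M.toCyc B' y ∧ OnV M.toCyc B' s) ∧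
  ∃ t, Adj M.toCyc y t ∧ OnV M.toCyc B t ∧ ¬ ∃ A', OnV M.toCyc A' x ∧ OnV M.toCyc A' t

theorem U_CA1 (V F : Type) (M : PMap V F) (x y : V) (A B : F) (v : V) (m m' : ℕ)
    (a b : ℕ → V) (hAx : OnV M.toCyc A x) (hBy : OnV M.toCyc B y) (hA : Acc M x y A v m a)
    (hB : Acc M y x B v m' b) : NRPath M.toCyc x y ∨ UExc M x y A B := by
  by_contra hcon
  rw [not_or] at hcon
  obtain ⟨hnp, hne⟩ := hcon
  apply hnp
  obtain ⟨q, qa, qb, q0, qn, qi, qe, qf⟩ := U_CA1X V F M x y A B v m m' a b hAx hBy hA hB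
  refine ⟨m + m', q, q0, qn, qi, qe, ?_⟩
  intro g i j hij hj hgi hgj k hik hkj
  by_cases hg : OnV M.toCyc g x ∨ OnV M.toCyc g y
  · exact qf g hg i j hij hj hgi hgj k hik hkj
  rw [not_or] at hg
  obtain ⟨hgx, hgy⟩ := hg
  have pa := U_part M x y A v m a hA hAx g hgx
  have pb := U_part M y x B v m' b hB hBy g hgy
  have h3a := hA.2.2.1
  have h3b := hB.2.2.1
  rcases Nat.lt_or_ge m j with hjm | hjm
  · rcases Nat.lt_or_ge i m with him | him
    · -- crossing
      rw [qa i him.le] at hgi
      rw [qb j hjm.le] at hgj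
      by_cases hgv : OnV M.toCyc g v
      · obtain ⟨ha1, ha2, ha3⟩ := pa i m him (le_refl m) hgi (by rw [h3a]; exact hgv)
        obtain ⟨hb1, hb2, hb3⟩ := pb (m + m' - j) m' (by omega) (le_refl m') hgj
          (by rw [h3b]; exact hgv)
        have hk : k = i ∨ k = m := by omega
        rcases hk with hk | hk
        · rw [hk, qa i him.le, qa (i + 1) (by omega)]
          exact ha3
        · rw [hk, qb m (le_refl m), qb (m + 1) (by omega), Sym2.eq_swap]
          have e1 : m + m' - (m + 1) = m + m' - j := by omega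
          have e2 : m + m' - m = m + m' - j + 1 := by omega
          rw [e1, e2]
          exact hb3
      · exfalso
        have hi1 : 1 ≤ i := by
          rcases Nat.eq_zero_or_pos i with h8 | h8
          · rw [h8, hA.2.1] at hgi
            exact absurd hgi hgx
          · exact h8
        have hj1 : 1 ≤ m + m' - j := by
          rcases Nat.eq_zero_or_pos (m + m' - j) with h8 | h8
          · rw [h8, hB.2.1] at hgj
            exact absurd hgj hgy
          · exact h8
        apply hne
        refine ⟨⟨g, hgx, hgy, ⟨_, U_acc M x y A v m a hA i him.le, hgi⟩,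
          ⟨_, U_acc M y x B v m' b hB (m + m' - j) (by omega), hgj⟩, ?_⟩,
          U_uns M x y A v m a hA (by omega), U_uns M y x B v m' b hB (by omega)⟩
        rintro ⟨u, hu1, hu2, hu3⟩
        have h9 := U_cm M x y A v m a hA hAx g hgx i him hgi u hu1 hu3 ⟨B, hBy, hu2⟩
        rw [h9] at hu3
        exact hgv hu3
    · -- part B
      rw [qb i him] at hgi
      rw [qb j hjm.le] at hgj
      have hij' : i < j := by omega
      obtain ⟨hb1, hb2, hb3⟩ := pb (m + m' - j) (m + m' - i) (by omega) (by omega) hgj hgi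
      have hk : k = i := by omega
      rw [hk, qb i him, qb (i + 1) (by omega), Sym2.eq_swap]
      have e1 : m + m' - (i + 1) = m + m' - j := by omega
      have e2 : m + m' - i = m + m' - j + 1 := by omega
      rw [e1, e2]
      exact hb3
  · -- part A
    rw [qa i (by omega)] at hgi
    rw [qa j hjm] at hgj
    obtain ⟨ha1, ha2, ha3⟩ := pa i j (by omega) hjm hgi hgj
    have hk : k = i := by omega
    rw [hk, qa i (by omega), qa (i + 1) (by omega)]
    exact ha3

theorem U_CA2 (V F : Type) (M : PMap V F) (x y : V) (A B : F) (v w : V) (m m' : ℕ)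
    (a b : ℕ → V) (hAx : OnV M.toCyc A x) (hBy : OnV M.toCyc B y)
    (eA : OnE M.toCyc A s(v, w)) (eB : OnE M.toCyc B s(v, w))
    (hxw : ¬ Adj M.toCyc x w) (hvy : ¬ Adj M.toCyc v y) (hA : Acc M x y A v m a)
    (hB : Acc M y x B w m' b) : NRPath M.toCyc x y ∨ UExc M x y A B := by
  by_contra hcon
  rw [not_or] at hcon
  obtain ⟨hnp, hne⟩ := hcon
  apply hnp
  obtain ⟨q, qa, qb, q0, qn, qi, qe, qf⟩ :=
    U_CA2X V F M x y A B v w m m' a b hAx hBy eA eB hxw hvy hA hB
  obtain ⟨vA, wA, vw⟩ := (h_EDG V F M).1 A v w eA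
  obtain ⟨vB, wB, -⟩ := (h_EDG V F M).1 B v w eB
  refine ⟨m + 1 + m', q, q0, qn, qi, qe, ?_⟩
  intro g i j hij hj hgi hgj k hik hkj
  by_cases hg : OnV M.toCyc g x ∨ OnV M.toCyc g y
  · exact qf g hg i j hij hj hgi hgj k hik hkj
  rw [not_or] at hg
  obtain ⟨hgx, hgy⟩ := hg
  have pa := U_part M x y A v m a hA hAx g hgx
  have pb := U_part M y x B w m' b hB hBy g hgy
  have h3a := hA.2.2.1
  have h3b := hB.2.2.1
  rcases Nat.lt_or_ge m j with hjm | hjm
  · rcases Nat.lt_or_ge m i with him | him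
    · -- part B
      rw [qb i him] at hgi
      rw [qb j hjm] at hgj
      obtain ⟨hb1, hb2, hb3⟩ := pb (m + 1 + m' - j) (m + 1 + m' - i) (by omega) (by omega) hgj hgi
      have hk : k = i := by omega
      rw [hk, qb i him, qb (i + 1) (by omega), Sym2.eq_swap]
      have e1 : m + 1 + m' - (i + 1) = m + 1 + m' - j := by omega
      have e2 : m + 1 + m' - i = m + 1 + m' - j + 1 := by omega
      rw [e1, e2]
      exact hb3
    · -- crossing
      have hgi0 := hgi
      have hgj0 := hgj
      rw [qa i him] at hgi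
      rw [qb j hjm] at hgj
      have hi1 : 1 ≤ i := by
        rcases Nat.eq_zero_or_pos i with h8 | h8
        · rw [h8, hA.2.1] at hgi
          exact absurd hgi hgx
        · exact h8
      have hj1 : 1 ≤ m + 1 + m' - j := by
        rcases Nat.eq_zero_or_pos (m + 1 + m' - j) with h8 | h8
        · rw [h8, hB.2.1] at hgj
          exact absurd hgj hgy
        · exact h8
      rcases Nat.lt_or_ge i m with hi2 | hi2
      · rcases Nat.lt_or_ge (m + 1) j with hj2 | hj2
        · exfalso
          apply hne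
          refine ⟨⟨g, hgx, hgy, ⟨_, U_acc M x y A v m a hA i him, hgi⟩,
            ⟨_, U_acc M y x B w m' b hB (m + 1 + m' - j) (by omega), hgj⟩, ?_⟩,
            U_uns M x y A v m a hA (by omega), U_uns M y x B w m' b hB (by omega)⟩
          rintro ⟨u, hu1, hu2, hu3⟩
          have h9 := U_cm M x y A v m a hA hAx g hgx i hi2 hgi u hu1 hu3 ⟨B, hBy, hu2⟩
          have h10 := U_cm M y x B w m' b hB hBy g hgy (m + 1 + m' - j) (by omega) hgj u hu2 hu3
            ⟨A, hAx, hu1⟩
          exact vw (h9.symm.trans h10)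
        · -- `g` contains `w`
          exfalso
          have hj3 : m + 1 + m' - j = m' := by omega
          rw [hj3, h3b] at hgj
          have h9 := U_cm M x y A v m a hA hAx g hgx i hi2 hgi w wA hgj ⟨B, hBy, wB⟩
          exact vw h9.symm
      · have hi3 : i = m := by omega
        rw [hi3, h3a] at hgi
        rcases Nat.lt_or_ge (m + 1) j with hj2 | hj2
        · exfalso
          have h10 := U_cm M y x B w m' b hB hBy g hgy (m + 1 + m' - j) (by omega) hgj v vB hgi
            ⟨A, hAx, vA⟩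
          exact vw h10
        · have hj3 : j = m + 1 := by omega
          have hk : k = m := by omega
          rw [hk]
          rw [hi3] at hgi0
          rw [hj3] at hgj0
          exact (h_EDG V F M).2 g _ _ (qe m (by omega)) hgi0 hgj0
  · -- part A
    rw [qa i (by omega)] at hgi
    rw [qa j hjm] at hgj
    obtain ⟨ha1, ha2, ha3⟩ := pa i j (by omega) hjm hgi hgj
    have hk : k = i := by omega
    rw [hk, qa i (by omega), qa (i + 1) (by omega)]
    exact ha3

theorem U_RT (V F : Type) (M : PMap V F) (x y : V) (A B : F)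
    (hno : ∀ f, ¬ (OnV M.toCyc f x ∧ OnV M.toCyc f y)) (hAx : OnV M.toCyc A x)
    (hBy : OnV M.toCyc B y) (hex : ex M x y A B) (hey : ex M y x B A) :
    NRPath M.toCyc x y ∨ UExc M x y A B := by
  obtain ⟨i, hsi, hBi, hi⟩ := hex
  obtain ⟨k, hsk, hAk, hk⟩ := hey
  have hno' : ∀ f, ¬ (OnV M.toCyc f y ∧ OnV M.toCyc f x) := fun f h => hno f ⟨h.2, h.1⟩
  have hAi : OnV M.toCyc A (ww M x A i) := ⟨_, rfl⟩
  have hBk : OnV M.toCyc B (ww M y B k) := ⟨_, rfl⟩
  obtain ⟨m, a, ha⟩ := RTA V F M x y A i hno hAx hsi.1 hsi.2.1 (by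
    rcases hi with hi | hi
    · refine Or.inl fun j h1 h2 h3 => ?_
      have := hi j ⟨h1, lt_trans h2 hsi.2.1, h3⟩
      omega
    · refine Or.inr fun j h1 h2 h3 => ?_
      have := hi j ⟨by omega, h2, h3⟩
      omega)
  obtain ⟨m', b, hb⟩ := RTA V F M y x B k hno' hBy hsk.1 hsk.2.1 (by
    rcases hk with hk | hk
    · refine Or.inl fun j h1 h2 h3 => ?_
      have := hk j ⟨h1, lt_trans h2 hsk.2.1, h3⟩
      omega
    · refine Or.inr fun j h1 h2 h3 => ?_
      have := hk j ⟨by omega, h2, h3⟩
      omega)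
  by_cases hvw : ww M x A i = ww M y B k
  · rw [← hvw] at hb
    exact U_CA1 V F M x y A B _ m m' a b hAx hBy ha hb
  · have hAB : A ≠ B := by
      rintro rfl
      exact hno _ ⟨hAx, hBy⟩
    obtain ⟨e1, e2, -⟩ := M.poly A B hAB _ _ hvw hAi hAk hBi hBk
    obtain ⟨-, hE⟩ := h_EDG V F M
    by_cases hxw : Adj M.toCyc x (ww M y B k)
    · have h1 : x ≠ ww M y B k := by
        intro h
        exact hno B ⟨by rw [h]; exact hBk, hBy⟩
      have h2 := RT_one V F M x y A _ hno h1 (hE A _ _ hxw hAx hAk)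
      exact U_CA1 V F M x y A B _ 1 m' _ b hAx hBy h2 hb
    · by_cases hvy : Adj M.toCyc (ww M x A i) y
      · have h1 : y ≠ ww M x A i := by
          intro h
          exact hno A ⟨hAx, by rw [h]; exact hAi⟩
        have h3 : OnE M.toCyc B s(y, ww M x A i) := by
          rw [Sym2.eq_swap]
          exact hE B _ _ hvy hBi hBy
        have h2 := RT_one V F M y x B _ hno' h1 h3
        exact U_CA1 V F M x y A B _ m 1 a _ hAx hBy ha h2
      · exact U_CA2 V F M x y A B _ _ m m' a b hAx hBy e1 e2 hxw hvy ha hb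


end Pool.Agent.helper84.NR
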