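import Pool.Agent.helper84.NR.AllW
import Pool.Agent.helper24.NRU.Core

set_option autoImplicit false

namespace Pool.Agent.helper84.NR

open scoped Classical
open Finset

theorem U_mem {V F : Type} [Fintype V] [Fintype F] (M : PMap V F) (x y : V) (p : F × F) :
    p ∈ MPs M x y ↔ OnV M.toCyc p.1 x ∧ OnV M.toCyc p.2 y ∧
      ∃ v, OnV M.toCyc p.1 v ∧ OnV M.toCyc p.2 v := by
  unfold MPs
  rw [mem_filter]
  exact ⟨fun h => h.2, fun h => ⟨mem_univ _, h⟩⟩

theorem U_ex {V F : Type} (M : PMap V F) {x y : V} {A B : F} (h : ex M x y A B) :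
    ∃ v, OnV M.toCyc A v ∧ OnV M.toCyc B v := by
  obtain ⟨i, _, h2, _⟩ := h
  exact ⟨ww M x A i, ⟨st M x A + i, rfl⟩, h2⟩

theorem U_GE (V F : Type) [Fintype V] [Fintype F] (M : PMap V F) (x y : V)
    (hN : ¬ NRPath M.toCyc x y)
    (hE : ∀ A B, OnV M.toCyc A x → OnV M.toCyc B y → (∃ v, OnV M.toCyc A v ∧ OnV M.toCyc B v) →
      ¬ UExc M x y A B)
    (hm : ∃ A B v, OnV M.toCyc A x ∧ OnV M.toCyc B y ∧ OnV M.toCyc A v ∧ OnV M.toCyc B v) :
    (XM M x y).card + (XM M y x).card + 8 ≤ (MPs M x y).card := by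
  have hne : ∀ f, ¬ (OnV M.toCyc f x ∧ OnV M.toCyc f y) :=
    fun f h => hN (h_PCF V F M x y f h.1 h.2)
  have hne' : ∀ f, ¬ (OnV M.toCyc f y ∧ OnV M.toCyc f x) := fun f h => hne f ⟨h.2, h.1⟩
  have hPne : (MPs M x y).Nonempty := by
    obtain ⟨A, B, v, h1, h3, h2, h4⟩ := hm
    exact ⟨(A, B), (U_mem M x y (A, B)).2 ⟨h1, h3, v, h2, h4⟩⟩
  have key := BIP F (MPs M x y) ((MPs M x y).filter fun p => ex M x y p.1 p.2)
    ((MPs M x y).filter fun p => ex M y x p.2 p.1) (filter_subset _ _) (filter_subset _ _) ?_ hPne ?_ ?_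
  · have e1 : XM M x y ⊆ (MPs M x y).image Prod.fst := by
      intro A hA
      unfold XM at hA
      obtain ⟨_, h1, B, h2, v, h3, h4⟩ := mem_filter.1 hA
      exact mem_image.2 ⟨(A, B), (U_mem M x y (A, B)).2 ⟨h1, h2, v, h3, h4⟩, rfl⟩
    have e2 : XM M y x ⊆ (MPs M x y).image Prod.snd := by
      intro B hB
      unfold XM at hB
      obtain ⟨_, h1, A, h2, v, h3, h4⟩ := mem_filter.1 hB
      exact mem_image.2 ⟨(A, B), (U_mem M x y (A, B)).2 ⟨h2, h1, v, h4, h3⟩, rfl⟩
    have c1 := card_le_card e1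
    have c2 := card_le_card e2
    omega
  · rw [disjoint_left]
    intro p h1 h2
    obtain ⟨h3, h4⟩ := mem_filter.1 h1
    obtain ⟨_, h5⟩ := mem_filter.1 h2
    obtain ⟨h6, h7, _⟩ := (U_mem M x y p).1 h3
    rcases U_RT V F M x y p.1 p.2 hne h6 h7 h4 h5 with h8 | h8
    · exact hN h8
    · exact hE p.1 p.2 h6 h7 (U_ex M h4) h8
  · intro A
    by_cases hA : OnV M.toCyc A x
    · have h1 := EXX V F M x y A hne hA
      have h2 : ((MPs M x y).filter fun p => p.1 = A).card ≤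
          (univ.filter (fun B => OnV M.toCyc B y ∧ ∃ v, OnV M.toCyc A v ∧ OnV M.toCyc B v)).card := by
        apply card_le_card_of_injOn Prod.snd
        · intro p hp
          obtain ⟨hp1, hp2⟩ := mem_filter.1 (mem_coe.1 hp)
          obtain ⟨_, h4, v, h5, h6⟩ := (U_mem M x y p).1 hp1
          rw [hp2] at h5
          exact mem_coe.2 (mem_filter.2 ⟨mem_univ _, h4, v, h5, h6⟩)
        · intro p hp p' hp' h
          have hp2 := (mem_filter.1 (mem_coe.1 hp)).2
          have hp2' := (mem_filter.1 (mem_coe.1 hp')).2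
          exact Prod.ext (hp2.trans hp2'.symm) h
      have h3 : (univ.filter (fun B => OnV M.toCyc B y ∧ ex M x y A B)).card ≤
          (((MPs M x y).filter fun p => ex M x y p.1 p.2).filter fun p => p.1 = A).card := by
        apply card_le_card_of_injOn (fun B => (A, B))
        · intro B hB
          obtain ⟨_, h4, h5⟩ := mem_filter.1 (mem_coe.1 hB)
          refine mem_coe.2 (mem_filter.2 ⟨mem_filter.2 ⟨?_, h5⟩, rfl⟩)
          exact (U_mem M x y (A, B)).2 ⟨hA, h4, U_ex M h5⟩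
        · intro B _ B' _ h
          exact (Prod.mk.inj h).2
      omega
    · have h2 : ((MPs M x y).filter fun p => p.1 = A).card = 0 := by
        rw [card_eq_zero]
        apply filter_eq_empty_iff.2
        intro p hp h
        have h3 := ((U_mem M x y p).1 hp).1
        rw [h] at h3
        exact hA h3
      rw [h2]
      exact (min_le_right _ _).trans (Nat.zero_le _)
  · intro B
    by_cases hB : OnV M.toCyc B y
    · have h1 := EXX V F M y x B hne' hB
      have h2 : ((MPs M x y).filter fun p => p.2 = B).card ≤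
          (univ.filter (fun A => OnV M.toCyc A x ∧ ∃ v, OnV M.toCyc B v ∧ OnV M.toCyc A v)).card := by
        apply card_le_card_of_injOn Prod.fst
        · intro p hp
          obtain ⟨hp1, hp2⟩ := mem_filter.1 (mem_coe.1 hp)
          obtain ⟨h4, _, v, h5, h6⟩ := (U_mem M x y p).1 hp1
          rw [hp2] at h6
          exact mem_coe.2 (mem_filter.2 ⟨mem_univ _, h4, v, h6, h5⟩)
        · intro p hp p' hp' h
          have hp2 := (mem_filter.1 (mem_coe.1 hp)).2
          have hp2' := (mem_filter.1 (mem_coe.1 hp')).2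
          exact Prod.ext h (hp2.trans hp2'.symm)
      have h3 : (univ.filter (fun A => OnV M.toCyc A x ∧ ex M y x B A)).card ≤
          (((MPs M x y).filter fun p => ex M y x p.2 p.1).filter fun p => p.2 = B).card := by
        apply card_le_card_of_injOn (fun A => (A, B))
        · intro A hA
          obtain ⟨_, h4, h5⟩ := mem_filter.1 (mem_coe.1 hA)
          refine mem_coe.2 (mem_filter.2 ⟨mem_filter.2 ⟨?_, h5⟩, rfl⟩)
          obtain ⟨v, h6, h7⟩ := U_ex M h5
          exact (U_mem M x y (A, B)).2 ⟨h4, hB, v, h7, h6⟩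
        · intro A _ A' _ h
          exact (Prod.mk.inj h).1
      omega
    · have h2 : ((MPs M x y).filter fun p => p.2 = B).card = 0 := by
        rw [card_eq_zero]
        apply filter_eq_empty_iff.2
        intro p hp h
        have h3 := ((U_mem M x y p).1 hp).2.1
        rw [h] at h3
        exact hB h3
      rw [h2]
      exact (min_le_right _ _).trans (Nat.zero_le _)


/-- **Theorem U.** -/
theorem U_FIN (V F : Type) [Fintype V] [Fintype F] (M : PMap V F) (hchi : -1 ≤ chi M.toCyc)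
    (x y : V)
    (hm : ∃ A B v, OnV M.toCyc A x ∧ OnV M.toCyc B y ∧ OnV M.toCyc A v ∧ OnV M.toCyc B v) :
    NRPath M.toCyc x y ∨ ∃ A B g, OnV M.toCyc A x ∧ OnV M.toCyc B y ∧
      ¬ OnV M.toCyc g x ∧ ¬ OnV M.toCyc g y ∧
      (∃ u, OnV M.toCyc A u ∧ OnV M.toCyc B u) ∧
      (∃ u, OnV M.toCyc A u ∧ OnV M.toCyc g u) ∧
      (∃ u, OnV M.toCyc B u ∧ OnV M.toCyc g u) ∧
      (¬ ∃ u, OnV M.toCyc A u ∧ OnV M.toCyc B u ∧ OnV M.toCyc g u) ∧
      (∃ s, Adj M.toCyc x s ∧ OnV M.toCyc A s ∧ ¬ ∃ B', OnV M.toCyc B' y ∧ OnV M.toCyc B' s) ∧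
      (∃ t, Adj M.toCyc y t ∧ OnV M.toCyc B t ∧ ¬ ∃ A', OnV M.toCyc A' x ∧ OnV M.toCyc A' t) := by
  by_contra hcon
  rw [not_or] at hcon
  obtain ⟨hno, hE0⟩ := hcon
  have hE : ∀ A B, OnV M.toCyc A x → OnV M.toCyc B y →
      (∃ v, OnV M.toCyc A v ∧ OnV M.toCyc B v) → ¬ UExc M x y A B := by
    rintro A B h1 h2 h3 ⟨⟨g, h4, h5, h6, h7, h8⟩, h9, h10⟩
    exact hE0 ⟨A, B, g, h1, h2, h4, h5, h3, h6, h7, h8, h9, h10⟩
  have hne : ∀ f, ¬ (OnV M.toCyc f x ∧ OnV M.toCyc f y) := by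
    intro f hf
    exact hno (h_PCF V F M x y f hf.1 hf.2)
  have hnn : ∀ s, Adj M.toCyc x s → ¬ Adj M.toCyc s y := by
    intro s h1 h2
    exact hno (h_PCN V F M x y s hne h1 h2)
  have hG := U_GE V F M x y hno hE hm
  have hF := h_FRM V F M x y hne hnn
  have hX : (XM M y x).Nonempty := by
    obtain ⟨A, B, v, h1, h3, h2, h4⟩ := hm
    refine ⟨B, ?_⟩
    unfold XM
    rw [Finset.mem_filter]
    exact ⟨Finset.mem_univ _, h3, A, h1, v, h4, h2⟩
  have hT := h_TOPW V F M x y hne hX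
  rw [hF] at hT
  have hG' : ((XM M x y).card : ℤ) + (XM M y x).card + 8 ≤ (MPs M x y).card := by exact_mod_cast hG
  linarith

end Pool.Agent.helper84.NR
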